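import Pool.Agent.Q284.PS.Stm0

/-!
# Project PS (helper284), job PS-BHA: the Brun-Hooley sieve, pointwise inequality
-/

set_option autoImplicit false

open Finset

namespace Pool.Agent.Q285.PS

open Pool.Agent.Q284.PS

/-- truncated alternating sums of binomial coefficients -/
theorem alt_choose (n k : ℕ) : ∑ i ∈ range (k + 1), (-1 : ℝ) ^ i * ((n + 1).choose i : ℝ) =
    (-1) ^ k * (n.choose k : ℝ) := by
  induction k with
  | zero => simp
  | succ k ih =>
    rw [sum_range_succ, ih, Nat.choose_succ_succ n k]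
    push_cast
    ring

/-- the truncated sums over the subsets of a set -/
theorem sum_pow {α : Type} (T : Finset α) (f : ℕ → ℝ) :
    ∑ E ∈ T.powerset, f E.card = ∑ i ∈ range (T.card + 1), (T.card.choose i : ℝ) * f i := by
  rw [sum_powerset_apply_card]
  refine sum_congr rfl fun i _ => ?_
  rw [nsmul_eq_mul]

theorem sum_choose_if (n : ℕ) (p : ℕ → Prop) [DecidablePred p] (K : ℕ)
    (hK : ∀ i, p i → i ≤ K) (f : ℕ → ℝ) :
    ∑ i ∈ range (n + 1), (n.choose i : ℝ) * (if p i then f i else 0) =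
      ∑ i ∈ range (K + 1), (n.choose i : ℝ) * (if p i then f i else 0) := by
  rcases le_total n K with h | h
  · refine sum_subset (range_subset_range.2 (by omega)) fun i _ hi => ?_
    rw [mem_range, not_lt] at hi
    rw [Nat.choose_eq_zero_of_lt (by omega)]
    simp
  · symm
    refine sum_subset (range_subset_range.2 (by omega)) fun i _ hi => ?_
    rw [mem_range, not_lt] at hi
    rw [if_neg fun hp => by have := hK i hp; omega, mul_zero]

/-- the upper factor of a block -/
noncomputable def nv (m n : ℕ) : ℝ := if n ≤ 2 * m then (-1) ^ n else 0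

/-- the additional factor of a block -/
noncomputable def tv (m n : ℕ) : ℝ := if n = 2 * m + 1 then (-1) ^ n else 0

theorem sum_nv {α : Type} (T : Finset α) (m : ℕ) :
    ∑ E ∈ T.powerset, nv m E.card = ∑ i ∈ range (2 * m + 1), (-1 : ℝ) ^ i * (T.card.choose i : ℝ) := by
  rw [sum_pow T (nv m)]
  unfold nv
  rw [sum_choose_if T.card (fun i => i ≤ 2 * m) (2 * m) (fun i h => h) (fun i => (-1) ^ i)]
  refine sum_congr rfl fun i hi => ?_
  rw [mem_range] at hi
  rw [if_pos (by omega), mul_comm]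

theorem sum_tv {α : Type} (T : Finset α) (m : ℕ) :
    ∑ E ∈ T.powerset, tv m E.card = -(T.card.choose (2 * m + 1) : ℝ) := by
  rw [sum_pow T (tv m)]
  unfold tv
  rw [sum_choose_if T.card (fun i => i = 2 * m + 1) (2 * m + 1) (fun i h => h.le)
    (fun i => (-1) ^ i)]
  rw [sum_eq_single (2 * m + 1)]
  · rw [if_pos rfl, pow_succ, pow_mul]
    norm_num
  · intro i _ hi
    rw [if_neg hi, mul_zero]
  · intro h
    exact absurd (mem_range.2 (by omega)) h

theorem nv_nonneg {α : Type} (T : Finset α) (m : ℕ) :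
    (if T.Nonempty then (0 : ℝ) else 1) ≤ ∑ E ∈ T.powerset, nv m E.card := by
  rw [sum_nv]
  split_ifs with h
  · obtain ⟨n, hn⟩ := Nat.exists_eq_succ_of_ne_zero h.card_pos.ne'
    rw [hn, Nat.succ_eq_add_one, alt_choose, pow_mul]
    norm_num
  · rw [not_nonempty_iff_eq_empty] at h
    rw [h, card_empty, sum_range_succ', sum_eq_zero]
    · simp
    · intro i _
      rw [Nat.choose_zero_succ]
      simp

theorem nv_le {α : Type} (T : Finset α) (m : ℕ) :
    ∑ E ∈ T.powerset, nv m E.card - (if T.Nonempty then (0 : ℝ) else 1) ≤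
      -∑ E ∈ T.powerset, tv m E.card := by
  rw [sum_nv, sum_tv, neg_neg]
  split_ifs with h
  · obtain ⟨n, hn⟩ := Nat.exists_eq_succ_of_ne_zero h.card_pos.ne'
    rw [hn, Nat.succ_eq_add_one, alt_choose, pow_mul, Nat.choose_succ_succ]
    push_cast
    have : (0 : ℝ) ≤ (n.choose (2 * m + 1) : ℝ) := Nat.cast_nonneg _
    norm_num
  · rw [not_nonempty_iff_eq_empty] at h
    rw [h, card_empty, sum_range_succ', sum_eq_zero]
    · simp
    · intro i _
      rw [Nat.choose_zero_succ]
      simp

/-- a sum over the subsets is a product of sums over the subsets of the blocks -/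
theorem sum_blocks {α : Type} [DecidableEq α] (S : Finset α) (blk : α → ℕ) (J : ℕ)
    (hJ : ∀ x ∈ S, blk x < J) (g : ℕ → Finset α → ℝ) :
    ∑ D ∈ S.powerset, ∏ j ∈ range J, g j (D.filter (fun x => blk x = j)) =
      ∏ j ∈ range J, ∑ E ∈ (S.filter (fun x => blk x = j)).powerset, g j E := by
  rw [prod_range (fun j => ∑ E ∈ (S.filter (fun x => blk x = j)).powerset, g j E), prod_univ_sum]
  refine sum_nbij' (fun D => fun j : Fin J => D.filter (fun x => blk x = j))
    (fun p => univ.biUnion p) ?_ ?_ ?_ ?_ ?_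
  · intro D hD
    rw [mem_powerset] at hD
    rw [Fintype.mem_piFinset]
    intro j
    rw [mem_powerset]
    exact filter_subset_filter _ hD
  · intro p hp
    rw [Fintype.mem_piFinset] at hp
    rw [mem_powerset]
    intro x hx
    rw [mem_biUnion] at hx
    obtain ⟨j, _, hx⟩ := hx
    exact (mem_filter.1 (mem_powerset.1 (hp j) hx)).1
  · intro D hD
    rw [mem_powerset] at hD
    ext x
    rw [mem_biUnion]
    constructor
    · rintro ⟨j, _, hx⟩
      exact (mem_filter.1 hx).1
    · intro hx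
      exact ⟨⟨blk x, hJ x (hD hx)⟩, mem_univ _, mem_filter.2 ⟨hx, rfl⟩⟩
  · intro p hp
    rw [Fintype.mem_piFinset] at hp
    funext j
    ext x
    rw [mem_filter, mem_biUnion]
    constructor
    · rintro ⟨⟨i, _, hx⟩, hxj⟩
      have h1 := (mem_filter.1 (mem_powerset.1 (hp i) hx)).2
      have h2 : i = j := Fin.ext (h1.symm.trans hxj)
      rw [← h2]
      exact hx
    · intro hx
      exact ⟨⟨j, mem_univ _, hx⟩, (mem_filter.1 (mem_powerset.1 (hp j) hx)).2⟩
  · intro D _
    rw [prod_range (fun j => g j (D.filter (fun x => blk x = j)))]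

theorem card_blocks {α : Type} [DecidableEq α] {S D : Finset α} {blk : α → ℕ} {J : ℕ}
    (hJ : ∀ x ∈ S, blk x < J) (hD : D ⊆ S) :
    (-1 : ℝ) ^ D.card = ∏ j ∈ range J, (-1 : ℝ) ^ (D.filter (fun x => blk x = j)).card := by
  rw [prod_pow_eq_pow_sum]
  congr 1
  exact card_eq_sum_card_fiberwise fun x hx => mem_coe.2 (mem_range.2 (hJ x (hD hx)))

theorem block_lt {α : Type} [DecidableEq α] {S D : Finset α} {blk : α → ℕ} {J j : ℕ}
    (hJ : ∀ x ∈ S, blk x < J) (hD : D ⊆ S) (h : 0 < (D.filter (fun x => blk x = j)).card) :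
    j < J := by
  obtain ⟨x, hx⟩ := card_pos.1 h
  rw [mem_filter] at hx
  rw [← hx.2]
  exact hJ x (hD hx.1)

theorem nuU_eq {α : Type} [DecidableEq α] {S D : Finset α} {blk : α → ℕ} {b J : ℕ}
    (hJ : ∀ x ∈ S, blk x < J) (hD : D ⊆ S) :
    nuU blk b D = ∏ j ∈ range J, nv (b + j) (D.filter (fun x => blk x = j)).card := by
  classical
  unfold nuU
  split_ifs with h
  · rw [card_blocks hJ hD]
    refine prod_congr rfl fun j _ => ?_
    unfold nv
    have h1 := h j
    rw [if_pos]
    convert h1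
  · push Not at h
    obtain ⟨j, hj⟩ := h
    have hj' : 2 * (b + j) < (D.filter (fun x => blk x = j)).card := by convert hj
    have hjJ := block_lt hJ hD (by omega : 0 < (D.filter (fun x => blk x = j)).card)
    refine (prod_eq_zero (mem_range.2 hjJ) ?_).symm
    unfold nv
    rw [if_neg (by omega)]

theorem nuT_eq {α : Type} [DecidableEq α] {S D : Finset α} {blk : α → ℕ} {b J j : ℕ}
    (hJ : ∀ x ∈ S, blk x < J) (hD : D ⊆ S) (hj : j ∈ range J) (p : Prop) [Decidable p]
    (hp : p ↔ ((D.filter (fun x => blk x = j)).card = 2 * (b + j) + 1 ∧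
      ∀ i : ℕ, i ≠ j → (D.filter (fun x => blk x = i)).card ≤ 2 * (b + i))) :
    (if p then (-1 : ℝ) ^ D.card else 0) =
    ∏ i ∈ range J, (if i = j then tv (b + i) (D.filter (fun x => blk x = i)).card
      else nv (b + i) (D.filter (fun x => blk x = i)).card) := by
  by_cases h : p
  · rw [if_pos h]
    obtain ⟨h1, h2⟩ := hp.1 h
    rw [card_blocks hJ hD]
    refine prod_congr rfl fun i _ => ?_
    split_ifs with hi
    · unfold tv
      rw [hi, if_pos h1]
    · unfold nv
      rw [if_pos (h2 i hi)]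
  · rw [if_neg h]
    rw [hp, not_and_or] at h
    rcases h with h | h
    · refine (prod_eq_zero hj ?_).symm
      rw [if_pos rfl]
      unfold tv
      rw [if_neg h]
    · push Not at h
      obtain ⟨i, hij, hi⟩ := h
      have hiJ := block_lt hJ hD (by omega : 0 < (D.filter (fun x => blk x = i)).card)
      refine (prod_eq_zero (mem_range.2 hiJ) ?_).symm
      rw [if_neg hij]
      unfold nv
      rw [if_neg (by omega)]

/-- telescoping -/
theorem tele {ι : Type} [DecidableEq ι] (s : Finset ι) (x u : ι → ℝ) (h0 : ∀ i, 0 ≤ x i)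
    (h1 : ∀ i, x i ≤ u i) :
    ∏ i ∈ s, u i - ∏ i ∈ s, x i ≤ ∑ j ∈ s, (u j - x j) * ∏ i ∈ s.erase j, u i := by
  induction s using Finset.induction_on with
  | empty => simp
  | insert a s ha ih =>
    have hu : ∀ i, 0 ≤ u i := fun i => (h0 i).trans (h1 i)
    rw [prod_insert ha, prod_insert ha, sum_insert ha, erase_insert ha]
    have h2 : ∑ j ∈ s, (u j - x j) * ∏ i ∈ (insert a s).erase j, u i =
        u a * ∑ j ∈ s, (u j - x j) * ∏ i ∈ s.erase j, u i := by
      rw [mul_sum]
      refine sum_congr rfl fun j hj => ?_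
      have hja : a ≠ j := fun h => ha (h ▸ hj)
      rw [erase_insert_of_ne hja, prod_insert fun h => ha (mem_of_mem_erase h)]
      ring
    rw [h2]
    have h3 : ∏ i ∈ s, x i ≤ ∏ i ∈ s, u i := prod_le_prod (fun i _ => h0 i) fun i _ => h1 i
    have h4 : x a * (∏ i ∈ s, u i - ∏ i ∈ s, x i) ≤
        u a * ∑ j ∈ s, (u j - x j) * ∏ i ∈ s.erase j, u i :=
      mul_le_mul (h1 a) ih (by linarith) (hu a)
    linarith

theorem t_BHA : S_BHA := by
  classical
  intro α S blk b J hJ
  obtain ⟨x, hx⟩ : ∃ x : ℕ → ℝ, x = fun j =>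
      if (S.filter (fun y => blk y = j)).Nonempty then 0 else 1 := ⟨_, rfl⟩
  obtain ⟨u, hu⟩ : ∃ u : ℕ → ℝ, u = fun j =>
      ∑ E ∈ (S.filter (fun y => blk y = j)).powerset, nv (b + j) E.card := ⟨_, rfl⟩
  obtain ⟨t, ht⟩ : ∃ t : ℕ → ℝ, t = fun j =>
      ∑ E ∈ (S.filter (fun y => blk y = j)).powerset, tv (b + j) E.card := ⟨_, rfl⟩
  have hx0 : ∀ j, 0 ≤ x j := fun j => by
    rw [hx]
    simp only
    split_ifs
    · exact le_rfl
    · exact zero_le_one
  have hxu : ∀ j, x j ≤ u j := fun j => by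
    rw [hx, hu]
    exact nv_nonneg _ _
  have hut : ∀ j, u j - x j ≤ -t j := fun j => by
    rw [hx, hu, ht]
    exact nv_le _ _
  have hprod : (if S.Nonempty then (0 : ℝ) else 1) = ∏ j ∈ range J, x j := by
    split_ifs with h
    · obtain ⟨y, hy⟩ := h
      refine (prod_eq_zero (mem_range.2 (hJ y hy)) ?_).symm
      rw [hx]
      simp only
      rw [if_pos ⟨y, mem_filter.2 ⟨hy, rfl⟩⟩]
    · rw [not_nonempty_iff_eq_empty] at h
      refine (prod_eq_one fun j _ => ?_).symm
      rw [hx]
      simp only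
      rw [h, filter_empty, if_neg Finset.not_nonempty_empty]
  have hU : ∑ D ∈ S.powerset, nuU blk b D = ∏ j ∈ range J, u j := by
    rw [hu, ← sum_blocks S blk J hJ (fun j E => nv (b + j) E.card)]
    exact sum_congr rfl fun D hD => nuU_eq hJ (mem_powerset.1 hD)
  have hL : ∑ D ∈ S.powerset, nuL blk b J D =
      ∏ j ∈ range J, u j + ∑ j ∈ range J, t j * ∏ i ∈ (range J).erase j, u i := by
    unfold nuL
    rw [sum_add_distrib, hU, sum_comm]
    congr 1
    refine sum_congr rfl fun j hj => ?_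
    obtain ⟨g, hg⟩ : ∃ g : ℕ → Finset α → ℝ, g = fun i E =>
      if i = j then tv (b + i) E.card else nv (b + i) E.card := ⟨_, rfl⟩
    have h1 : ∀ D ∈ S.powerset, ∏ i ∈ range J, g i (D.filter (fun x => blk x = i)) =
        ∏ i ∈ range J, (if i = j then tv (b + i) (D.filter (fun x => blk x = i)).card
          else nv (b + i) (D.filter (fun x => blk x = i)).card) := fun D _ => by rw [hg]
    refine (sum_congr rfl fun D hD => (nuT_eq hJ (mem_powerset.1 hD) hj _ Iff.rfl).trans
      (h1 D hD).symm).trans ?_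
    rw [sum_blocks S blk J hJ g, ← mul_prod_erase _ _ hj, ht, hu, hg]
    simp only
    have h2 : ∏ i ∈ (range J).erase j, (∑ E ∈ (S.filter (fun y => blk y = i)).powerset,
        if i = j then tv (b + i) E.card else nv (b + i) E.card) =
        ∏ i ∈ (range J).erase j, ∑ E ∈ (S.filter (fun y => blk y = i)).powerset,
          nv (b + i) E.card := by
      refine prod_congr rfl fun i hi => sum_congr rfl fun E _ => ?_
      rw [if_neg (ne_of_mem_erase hi)]
    rw [h2]
    simp only [if_true]
  rw [hU, hL, hprod]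
  refine ⟨?_, prod_le_prod (fun j _ => hx0 j) fun j _ => hxu j⟩
  have h1 := tele (range J) x u hx0 hxu
  have h2 : ∑ j ∈ range J, (u j - x j) * ∏ i ∈ (range J).erase j, u i ≤
      ∑ j ∈ range J, (-t j) * ∏ i ∈ (range J).erase j, u i := by
    refine sum_le_sum fun j _ => mul_le_mul_of_nonneg_right (hut j) ?_
    exact prod_nonneg fun i _ => (hx0 i).trans (hxu i)
  have h3 : ∑ j ∈ range J, (-t j) * ∏ i ∈ (range J).erase j, u i =
      -∑ j ∈ range J, t j * ∏ i ∈ (range J).erase j, u i := by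
    rw [← sum_neg_distrib]
    exact sum_congr rfl fun j _ => by ring
  linarith

end Pool.Agent.Q285.PS
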